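import Mathlib.LinearAlgebra.Matrix.GeneralLinearGroup.Defs
import Mathlib.Topology.UnitInterval
import Mathlib.Topology.Instances.Matrix
import Mathlib.Analysis.CStarAlgebra.Classes

/-! Statement layer: character varieties and flawed groups. -/

namespace Pool.Agent.MP_94b95a_al

variable {N : ℕ}

/-- Value of a polynomial in the matrix entries. -/
noncomputable def ev (g : GL (Fin N) ℂ) (p : MvPolynomial (Fin N × Fin N) ℂ) : ℂ :=
  MvPolynomial.eval (fun ij => (g : Matrix (Fin N) (Fin N) ℂ) ij.1 ij.2) p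

/-- Zariski closed subgroups of `GL(N, ℂ)`. -/
def IsZClosed (G : Subgroup (GL (Fin N) ℂ)) : Prop :=
  ∃ S : Set (MvPolynomial (Fin N × Fin N) ℂ), ∀ g, g ∈ G ↔ ∀ p ∈ S, ev g p = 0

/-- A connected reductive complex algebraic group: a Zariski closed connected subgroup of
`GL(N, ℂ)` whose unipotent radical is trivial, that is, every Zariski closed connected normal
subgroup consisting of unipotent matrices is trivial. -/
def IsReductive (G : Subgroup (GL (Fin N) ℂ)) : Prop :=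
  IsZClosed G ∧ IsConnected (G : Set (GL (Fin N) ℂ)) ∧
    ∀ U : Subgroup (GL (Fin N) ℂ), U ≤ G → IsZClosed U → IsConnected (U : Set (GL (Fin N) ℂ)) →
      (∀ g ∈ G, ∀ u ∈ U, g * u * g⁻¹ ∈ U) →
      (∀ u ∈ U, IsNilpotent ((u : Matrix (Fin N) (Fin N) ℂ) - 1)) → U = ⊥

/-- `K` is a maximal compact subgroup of `G`. -/
def IsMaxCompact (G K : Subgroup (GL (Fin N) ℂ)) : Prop :=
  K ≤ G ∧ IsCompact (K : Set (GL (Fin N) ℂ)) ∧
    ∀ K' : Subgroup (GL (Fin N) ℂ), K ≤ K' → K' ≤ G →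
      IsCompact (K' : Set (GL (Fin N) ℂ)) → K' = K

/-- `Hom(Γ, G)` with the topology of pointwise convergence. -/
abbrev Rep (Γ : Type) [Group Γ] (G : Subgroup (GL (Fin N) ℂ)) : Type :=
  {ρ : Γ → GL (Fin N) ℂ // (∀ γ, ρ γ ∈ G) ∧ ∀ a b, ρ (a * b) = ρ a * ρ b}

/-- Conjugacy of homomorphisms by an element of `G`. -/
def Conj {Γ : Type} [Group Γ] {G : Subgroup (GL (Fin N) ℂ)} (ρ ρ' : Rep Γ G) : Prop :=
  ∃ g ∈ G, ∀ γ, ρ'.1 γ = g * ρ.1 γ * g⁻¹

/-- Homomorphisms with closed conjugation orbit. -/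
abbrev Poly (Γ : Type) [Group Γ] (G : Subgroup (GL (Fin N) ℂ)) : Type :=
  {ρ : Rep Γ G // IsClosed {ρ' : Rep Γ G | Conj ρ ρ'}}

/-- The character variety: closed orbits, with the quotient topology. -/
abbrev CharVar (Γ : Type) [Group Γ] (G : Subgroup (GL (Fin N) ℂ)) : Type :=
  Quot (fun ρ ρ' : Poly Γ G => Conj ρ.1 ρ'.1)

/-- The classes of homomorphisms with values in `K`. -/
def CompactPart (Γ : Type) [Group Γ] (G K : Subgroup (GL (Fin N) ℂ)) : Set (CharVar Γ G) :=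
  {x | ∃ ρ : Poly Γ G, (∀ γ, ρ.1.1 γ ∈ K) ∧ x = Quot.mk _ ρ}

/-- `Y` is a strong deformation retract of `X`. -/
def IsSDR {X : Type} [TopologicalSpace X] (Y : Set X) : Prop :=
  ∃ H : C(X × unitInterval, X),
    (∀ x, H (x, 0) = x) ∧ (∀ x, H (x, 1) ∈ Y) ∧ ∀ y ∈ Y, ∀ t, H (y, t) = y

/-- Flawed groups. -/
def Flawed (Γ : Type) [Group Γ] : Prop :=
  ∀ (N : ℕ) (G K : Subgroup (GL (Fin N) ℂ)), IsReductive G → IsMaxCompact G K →
    IsSDR (CompactPart Γ G K)

end Pool.Agent.MP_94b95a_al
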